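import Pool.Agent.H49.EC.K6b
import Pool.Agent.H92.EC.Xl

/-!
# Project EC, K6: integrate the inequality of `u_w` over `w` and let `delta -> 0` (abstract form)
-/

set_option autoImplicit false

open Set MeasureTheory Filter Topology
open H92.EC

namespace H49.EC

/-- the singular term of `X0` is the birth term -/
theorem singular_eq {q kap y n dl : ℝ} (hq : 0 < q) (hy : 0 < y) (hn : 0 < n) (hdl : 0 < dl) :
    q * (y ^ (kap - q) * n ^ (2 - q)) * ((dl / (y * n)) ^ (-q) / q) =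
      dl ^ (-q) * (y ^ kap * n ^ 2) := by
  have h1 : (dl / (y * n)) ^ (-q) = dl ^ (-q) * (y ^ q * n ^ q) := by
    rw [Real.div_rpow hdl.le (by positivity), Real.mul_rpow hy.le hn.le, Real.rpow_neg hy.le,
      Real.rpow_neg hn.le, ← mul_inv, div_inv_eq_mul]
  have h2 : y ^ kap = y ^ (kap - q) * y ^ q := by
    rw [← Real.rpow_add hy]
    congr 1
    ring
  have h3 : n ^ 2 = n ^ (2 - q) * n ^ q := by
    rw [← Real.rpow_add hn, ← Real.rpow_natCast]
    congr 1
    push_cast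
    ring
  rw [h1, h2, h3]
  field_simp

theorem K6_abstract {q kap d0 S Sl : ℝ} (hq : 0 < q) (hq1 : q < 1) (hkap : 0 < kap) (hd0 : 0 < d0)
    {K : Set (ℝ × ℝ)} (hK : IsCompact K) (hpos : ∀ z ∈ K, 0 < z.2) {b c e : ℝ × ℝ → ℂ}
    (hb : ContinuousOn b K) (hc : ContinuousOn c K) (he : ContinuousOn e K)
    (hc0 : ∀ z ∈ K, c z ≠ 0) {W : Set ℂ} (hW : MeasurableSet W) (hWb : Bornology.IsBounded W)
    (hWc : ∀ z ∈ K, ∀ w, ‖w - b z‖ < q / kap * (z.2 * ‖c z‖) → w ∈ W)
    {birth side slack : ℝ → ℂ → ℝ}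
    (hbirth : ∀ dl ∈ Ioo 0 d0, IntegrableOn (birth dl) W)
    (hbirthv : ∀ dl ∈ Ioo 0 d0,
      dl ^ (-q) * ∫ z in K, z.2 ^ kap * ‖c z‖ ^ 2 ≤ ∫ w in W, birth dl w)
    (hside : ∀ dl ∈ Ioo 0 d0, IntegrableOn (side dl) W)
    (hsidev : ∀ dl ∈ Ioo 0 d0, ∫ w in W, side dl w ≤ S)
    (hslack : ∀ dl ∈ Ioo 0 d0, IntegrableOn (slack dl) W)
    (hslackv : ∀ dl ∈ Ioo 0 d0, Sl ≤ ∫ w in W, slack dl w)
    (hineq : ∀ dl ∈ Ioo 0 d0, ∀ᵐ w ∂(volume.restrict W),
      birth dl w + slack dl w ≤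
        (∫ z in K, Jw q kap dl z.2 (b z) (c z) (e z) w) + side dl w) :
    Sl ≤ q * (-((q / kap) ^ (-q) / (q * (1 - q))) *
          (∫ z in K, z.2 ^ (kap - q) * ‖c z‖ ^ (2 - q)) +
        (q / kap) ^ (1 - q) / ((1 - q) * (2 - q)) *
          (∫ z in K, z.2 ^ (kap - q) * ‖c z‖ ^ (2 - q) * ((z.2 : ℂ) * e z / c z).im) -
        X2 q (q / kap) 0 *
          (∫ z in K, z.2 ^ (kap - q) * ‖c z‖ ^ (2 - q) * ((z.2 : ℂ) * e z / c z).re)) + S := by
  have hR : 0 < q / kap := by positivity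
  have hKm : MeasurableSet K := hK.measurableSet
  -- the functions
  set g : ℝ × ℝ → ℝ := fun z => z.2 ^ (kap - q) * ‖c z‖ ^ (2 - q) with hg
  set be : ℝ × ℝ → ℝ := fun z => ((z.2 : ℂ) * e z / c z).im with hbe
  set al : ℝ × ℝ → ℝ := fun z => ((z.2 : ℂ) * e z / c z).re with hal
  have hV : ContinuousOn (fun z : ℝ × ℝ => z.2 * ‖c z‖) K :=
    continuousOn_snd.mul hc.norm
  have hgc : ContinuousOn g K :=
    (continuousOn_snd.rpow_const (fun z hz => Or.inl (hpos z hz).ne')).mul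
      (hc.norm.rpow_const (fun z hz => Or.inl (norm_pos_iff.mpr (hc0 z hz)).ne'))
  have hAc : ContinuousOn (fun z : ℝ × ℝ => (z.2 : ℂ) * e z / c z) K :=
    ((Complex.continuous_ofReal.comp_continuousOn continuousOn_snd).mul he).div hc hc0
  have hbec : ContinuousOn be K := Complex.continuous_im.comp_continuousOn hAc
  have halc : ContinuousOn al K := Complex.continuous_re.comp_continuousOn hAc
  classical
  set V : ℝ × ℝ → ℝ := K.piecewise (fun z => z.2 * ‖c z‖) (fun _ => 1) with hVd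
  have hVm : Measurable V := hV.measurable_piecewise continuousOn_const hKm
  have hVK : ∀ z ∈ K, V z = z.2 * ‖c z‖ := fun z hz => by
    rw [hVd, piecewise_eq_of_mem _ _ _ hz]
  obtain ⟨V0, hV0, hVV⟩ : ∃ V0 : ℝ, 0 < V0 ∧ ∀ z ∈ K, V0 ≤ V z := by
    rcases K.eq_empty_or_nonempty with h | h
    · exact ⟨1, one_pos, fun z hz => by rw [h] at hz; exact hz.elim⟩
    · obtain ⟨z0, hz0, hmin⟩ := hK.exists_isMinOn h hV
      refine ⟨z0.2 * ‖c z0‖, mul_pos (hpos z0 hz0) (norm_pos_iff.mpr (hc0 z0 hz0)), ?_⟩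
      intro z hz
      rw [hVK z hz]
      exact hmin hz
  have hlim := tendsto_total (μ := volume.restrict K) (q := q) (R := q / kap) (g := g) (k := be)
    (al := al) (V := V) hq hq1 hR (hgc.integrableOn_compact hK)
    ((hgc.mul hbec).integrableOn_compact hK) ((hgc.mul halc).integrableOn_compact hK) hVm hV0
    ((ae_restrict_mem hKm).mono hVV)
  have hlim2 := (hlim.const_mul q).add_const S
  apply ge_of_tendsto hlim2
  have h1 : Ioo (0 : ℝ) d0 ∈ 𝓝[>] (0 : ℝ) := Ioo_mem_nhdsGT hd0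
  filter_upwards [h1] with dl hdl
  have hdl0 : 0 < dl := hdl.1
  -- integrate the inequality over `w`
  have hJ := integrable_inner (q := q) (kap := kap) hdl0 hK hpos hb hc he hW hWb
  have h2 : ∫ w in W, (birth dl w + slack dl w) ≤
      ∫ w in W, ((∫ z in K, Jw q kap dl z.2 (b z) (c z) (e z) w) + side dl w) :=
    integral_mono_ae ((hbirth dl hdl).add (hslack dl hdl)) (hJ.add (hside dl hdl))
      (hineq dl hdl)
  rw [integral_add (hbirth dl hdl) (hslack dl hdl), integral_add hJ (hside dl hdl),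
    swap_Phi hdl0 hK hpos hb hc he hW hWb] at h2
  have h3 : ∫ z in K, ∫ w in W, Jw q kap dl z.2 (b z) (c z) (e z) w =
      ∫ z in K, (q * (g z * (X0 q (q / kap) (dl / V z) - (dl / V z) ^ (-q) / q +
        be z * X1 q (q / kap) (dl / V z) - al z * X2 q (q / kap) (dl / V z))) +
        dl ^ (-q) * (z.2 ^ kap * ‖c z‖ ^ 2)) := by
    apply setIntegral_congr_fun hKm
    intro z hz
    simp only
    rw [integral_Jw_univ hq hkap (hpos z hz) hdl0 (hc0 z hz) (b z) (e z) (hWc z hz), hVK z hz,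
      ← singular_eq (kap := kap) hq (hpos z hz) (norm_pos_iff.mpr (hc0 z hz)) hdl0]
    simp only [hg, hbe, hal]
    ring
  have hbc : ContinuousOn (fun z : ℝ × ℝ => dl ^ (-q) * (z.2 ^ kap * ‖c z‖ ^ 2)) K :=
    continuousOn_const.mul
      ((continuousOn_snd.rpow_const (fun z hz => Or.inl (hpos z hz).ne')).mul (hc.norm.pow 2))
  have hbi : IntegrableOn (fun z : ℝ × ℝ => dl ^ (-q) * (z.2 ^ kap * ‖c z‖ ^ 2)) K :=
    hbc.integrableOn_compact hK
  -- integrability of the first summand: difference of two integrable functions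
  have hsum : IntegrableOn (fun z : ℝ × ℝ =>
      (q * (g z * (X0 q (q / kap) (dl / V z) - (dl / V z) ^ (-q) / q +
        be z * X1 q (q / kap) (dl / V z) - al z * X2 q (q / kap) (dl / V z))) +
        dl ^ (-q) * (z.2 ^ kap * ‖c z‖ ^ 2))) K := by
    have h4 := integrableOn_Phi (q := q) (kap := kap) hdl0 hK hpos hb hc he hW hWb
    unfold IntegrableOn at h4
    rw [← Measure.prod_restrict] at h4
    have h5 := h4.integral_prod_left
    refine IntegrableOn.congr_fun (f := fun z => ∫ w in W, Phi q kap dl b c e (z, w)) h5 ?_ hKm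
    intro z hz
    simp only [Phi]
    rw [integral_Jw_univ hq hkap (hpos z hz) hdl0 (hc0 z hz) (b z) (e z) (hWc z hz), hVK z hz,
      ← singular_eq (kap := kap) hq (hpos z hz) (norm_pos_iff.mpr (hc0 z hz)) hdl0]
    simp only [hg, hbe, hal]
    ring
  have hfst : IntegrableOn (fun z : ℝ × ℝ =>
      q * (g z * (X0 q (q / kap) (dl / V z) - (dl / V z) ^ (-q) / q +
        be z * X1 q (q / kap) (dl / V z) - al z * X2 q (q / kap) (dl / V z)))) K := by
    have := hsum.sub hbi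
    refine IntegrableOn.congr_fun this ?_ hKm
    intro z _
    simp only [Pi.sub_apply]
    ring
  rw [h3, integral_add hfst hbi, integral_const_mul, integral_const_mul] at h2
  have h6 := hbirthv dl hdl
  have h7 := hsidev dl hdl
  have h8 := hslackv dl hdl
  linarith

end H49.EC
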