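import Pool.Agent.H13.EC.Def
import Pool.Agent.H49.EC.K6c

/-!
# Project EC, K6: the kernel of `H13.EC.Def` in the notation of `H92.EC.Xw`
-/

set_option autoImplicit false

open Set MeasureTheory Filter Topology

namespace H49.EC

open H62.CJ H13.EC

theorem EE_eq (F : ℂ → ℂ) (δ : ℝ) (w z : ℂ) : EE F δ w z = H92.EC.MW δ (F z) w := by
  unfold EE H92.EC.MW
  rw [norm_sub_rev]

theorem PR_eq (F : ℂ → ℂ) (w z : ℂ) :
    PR F w z = -((starRingEnd ℂ) (w - F z) * deriv F z).re := by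
  unfold PR
  rw [← neg_sub w (F z), map_neg, neg_mul, Complex.neg_re]

theorem QI_eq (F : ℂ → ℂ) (w z : ℂ) :
    QI F w z = ((starRingEnd ℂ) (w - F z) * (Complex.I * deriv F z)).re := by
  unfold QI
  have : (starRingEnd ℂ) (w - F z) * (Complex.I * deriv F z) =
      -(((starRingEnd ℂ) (F z - w) * deriv F z) * Complex.I) := by
    rw [← neg_sub w (F z), map_neg]
    ring
  rw [this]
  simp

theorem SI_eq (F : ℂ → ℂ) (w z : ℂ) :
    SI F w z = ((starRingEnd ℂ) (w - F z) * (Complex.I * deriv (deriv F) z)).re := by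
  unfold SI
  have : (starRingEnd ℂ) (w - F z) * (Complex.I * deriv (deriv F) z) =
      -(((starRingEnd ℂ) (F z - w) * deriv (deriv F) z) * Complex.I) := by
    rw [← neg_sub w (F z), map_neg]
    ring
  rw [this]
  simp

theorem MW_pos {δ : ℝ} (hδ : 0 < δ) (b w : ℂ) : 0 < H92.EC.MW δ b w := by
  unfold H92.EC.MW
  positivity

theorem ux_eq (F : ℂ → ℂ) (q κ δ : ℝ) (w z : ℂ) :
    ux F q κ δ w z = H92.EC.UX q κ δ z.im (F z) (deriv F z) w := by
  unfold ux H92.EC.UX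
  rw [EE_eq, PR_eq]
  ring

theorem uy_eq (F : ℂ → ℂ) (q κ δ : ℝ) (hδ : 0 < δ) (w z : ℂ) (hz : 0 < z.im) :
    uy F q κ δ w z = H92.EC.UY q κ δ z.im (F z) (deriv F z) w := by
  unfold uy H92.EC.UY
  rw [EE_eq, QI_eq]
  have hM := MW_pos hδ (F z) w
  have e1 : H92.EC.MW δ (F z) w ^ (-(q / 2)) =
      H92.EC.MW δ (F z) w ^ (-(q / 2) - 1) * H92.EC.MW δ (F z) w := by
    rw [← Real.rpow_add_one hM.ne']
    congr 1
    ring
  have e2 : z.im ^ κ = z.im ^ (κ - 1) * z.im := by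
    rw [← Real.rpow_add_one hz.ne']
    congr 1
    ring
  rw [e1, e2]
  ring

theorem uxy_eq (F : ℂ → ℂ) (q κ δ : ℝ) (hδ : 0 < δ) (w z : ℂ) (hz : 0 < z.im) :
    uxy F q κ δ w z =
      H92.EC.UXY q κ δ z.im (F z) (deriv F z) (deriv (deriv F) z) w := by
  unfold uxy H92.EC.UXY
  rw [EE_eq, PR_eq, QI_eq, SI_eq]
  have hM := MW_pos hδ (F z) w
  have e1 : H92.EC.MW δ (F z) w ^ (-(q / 2) - 1) =
      H92.EC.MW δ (F z) w ^ (-(q / 2) - 2) * H92.EC.MW δ (F z) w := by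
    rw [← Real.rpow_add_one hM.ne']
    congr 1
    ring
  have e2 : z.im ^ κ = z.im ^ (κ - 1) * z.im := by
    rw [← Real.rpow_add_one hz.ne']
    congr 1
    ring
  rw [e1, e2]
  field_simp
  ring

theorem jj_eq (F : ℂ → ℂ) (q κ δ : ℝ) (hδ : 0 < δ) (w z : ℂ) (hz : 0 < z.im) :
    jj F q κ δ w z = Jw q κ δ z.im (F z) (deriv F z) (deriv (deriv F) z) w := by
  unfold jj Jw
  rw [ux_eq, uy_eq F q κ δ hδ w z hz, uxy_eq F q κ δ hδ w z hz]

end H49.EC
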