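import Pool.Agent.H13.EC.T4
import Pool.Agent.H13.EC.K1
import Pool.Agent.H13.EC.K5
import Pool.Agent.H49.EC.K6d

/-!
# Project EC, K6: STAR+ for the kernel `u_w`, for every `w`
-/

set_option autoImplicit false

open Set Metric MeasureTheory Filter Topology

namespace H49.EC

open H62.CJ H13.EC

theorem cont_comp {g : ℂ × ℂ → ℝ} (hg : ContinuousOn g (univ ×ˢ HP)) (w : ℂ) (x0 x1 y1 b : ℝ)
    (hy1 : 0 < y1) :
    ContinuousOn (fun p : ℝ × ℝ => g (w, pt p.1 p.2)) (Icc x0 x1 ×ˢ Icc y1 b) := by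
  apply hg.comp
  · exact (continuous_const.prodMk P1_pt_cont).continuousOn
  · rintro ⟨x, y⟩ ⟨_, hy⟩
    exact ⟨mem_univ _, hy1.trans_le hy.1⟩

/-- the side terms -/
noncomputable def sideT (F : ℂ → ℂ) (q κ δ x1 x0 y1 b : ℝ) (w : ℂ) : ℝ :=
  (∫ y in y1..b, max 0 (-uy F q κ δ w (pt x1 y))) +
    (∫ x in x0..x1, max 0 (-ux F q κ δ w (pt x b))) + uu F q κ δ w (pt x1 b)

/-- the births -/
noncomputable def birthT (F : ℂ → ℂ) (q κ δ x0 y1 b : ℝ) : ℂ → ℝ :=
  (F '' HO x0 y1 b).indicator (fun w => δ ^ (-q) * hgt F (HO x0 y1 b) w ^ κ)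

/-- the gains -/
noncomputable def slackT {ι : Type} (s : Finset ι) (ω : ι → ℂ) (σ γ : ι → ℝ) (w : ℂ) : ℝ :=
  ∑ k ∈ s, (ball (ω k) (σ k)).indicator (fun _ => γ k) w

theorem per_w (F : ℂ → ℂ) (M : ℝ) (hF : Cls F M) (q κ δ x0 y1 b : ℝ) (hq : 0 < q) (hκ : 0 < κ)
    (hδ : 0 < δ) (hy1 : 0 < y1) (hb : y1 < b) (hb1 : b ≤ 1 / 4)
    {ι : Type} (s : Finset ι) (c : ι → ℂ) (ρ : ι → ℝ) (ω : ι → ℂ) (σ γ : ι → ℝ) (δ0 : ℝ)
    (fam : IsFam F q κ x0 y1 b s c ρ ω σ γ δ0) (hδ0 : δ ≤ δ0) (w : ℂ) :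
    birthT F q κ δ x0 y1 b w + slackT s ω σ γ w ≤
      (∫ p in RC x0 y1 b, jj F q κ δ w (pt p.1 p.2)) +
        sideT F q κ δ (x0 + 2 * Real.pi) x0 y1 b w := by
  classical
  have hx : x0 < x0 + 2 * Real.pi := by linarith [Real.pi_pos]
  set s' := s.filter (fun k => w ∈ ball (ω k) (σ k)) with hs'
  have hmem : ∀ k ∈ s', k ∈ s ∧ w ∈ ball (ω k) (σ k) := fun k hk => by
    rw [hs', Finset.mem_filter] at hk
    exact hk
  have hslack : slackT s ω σ γ w = ∑ k ∈ s', γ k := by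
    unfold slackT
    rw [hs', Finset.sum_filter]
    apply Finset.sum_congr rfl
    intro k _
    rw [indicator_apply]
  have hgainz : ∀ k ∈ s', ∀ z : ℂ, ρ k / 2 ≤ ‖z - c k‖ → ‖z - c k‖ ≤ ρ k →
      uu F q κ δ w z + γ k ≤ uu F q κ δ w (c k) := fun k hk z h1 h2 =>
    fam.gain k (hmem k hk).1 w (hmem k hk).2 δ hδ hδ0 z h1 h2
  have hγf : ∀ k ∈ s', γ k ≤ uu F q κ δ w (pt (c k).re (c k).im) := by
    intro k hk
    have hρ := fam.ρ_pos k (hmem k hk).1
    have him := (fam.im_mem k (hmem k hk).1).1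
    have h1 := hgainz k hk (c k + ((ρ k / 2 : ℝ) : ℂ))
      (by rw [add_sub_cancel_left, Complex.norm_real, Real.norm_eq_abs, abs_of_pos (by linarith)])
      (by rw [add_sub_cancel_left, Complex.norm_real, Real.norm_eq_abs,
            abs_of_pos (by linarith)]
          linarith)
    have h2 : 0 < uu F q κ δ w (c k + ((ρ k / 2 : ℝ) : ℂ)) := by
      apply uu_pos F q κ δ hδ
      rw [Complex.add_im, Complex.ofReal_im, add_zero]
      linarith
    rw [pt_re_im]
    linarith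
  have key0 : ∀ x ∈ Icc x0 (x0 + 2 * Real.pi), ∀ y ∈ Icc y1 b, 0 < y := fun x _ y hy =>
    hy1.trans_le hy.1
  have hR : (∫ p in RC x0 y1 b, jj F q κ δ w (pt p.1 p.2)) =
      ∫ p in Icc x0 (x0 + 2 * Real.pi) ×ˢ Icc y1 b,
        if (fun x y => ux F q κ δ w (pt x y)) p.1 p.2 < 0 ∧
          (fun x y => uy F q κ δ w (pt x y)) p.1 p.2 < 0 then
          (fun x y => uxy F q κ δ w (pt x y)) p.1 p.2 else 0 := rfl
  rw [hslack, hR]
  unfold birthT sideT
  by_cases hw : w ∈ F '' HO x0 y1 b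
  · -- the birth point
    rw [indicator_of_mem hw]
    have hz1 := Function.invFunOn_mem hw
    have hz2 := Function.invFunOn_eq hw
    set z := Function.invFunOn F (HO x0 y1 b) w with hz
    have hzy : 0 < z.im := hy1.trans_le hz1.2.1
    have hfz : uu F q κ δ w (pt z.re z.im) = δ ^ (-q) * hgt F (HO x0 y1 b) w ^ κ := by
      rw [pt_re_im]
      unfold uu EE hgt
      rw [hz2, ← hz, sub_self, norm_zero]
      have : ((0 : ℝ) ^ 2 + δ ^ 2) ^ (-(q / 2)) = δ ^ (-q) := by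
        rw [← Real.rpow_natCast δ 2]
        rw [show ((0 : ℝ) ^ 2 + δ ^ ((2 : ℕ) : ℝ)) = δ ^ ((2 : ℕ) : ℝ) by simp,
          ← Real.rpow_mul hδ.le]
        congr 1
        push_cast
        ring
      rw [this]
      ring
    rw [← hfz]
    have := star_plus_yx x0 (x0 + 2 * Real.pi) y1 b hx hb
      (fun x y => uu F q κ δ w (pt x y)) (fun x y => ux F q κ δ w (pt x y))
      (fun x y => uy F q κ δ w (pt x y)) (fun x y => uxy F q κ δ w (pt x y))
      (fun x y => lx F q δ w (pt x y)) (fun x y => ly F q κ δ w (pt x y))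
      (fun x y => lxx F q δ w (pt x y)) (fun x y => lyy F q κ δ w (pt x y))
      (fun x hx y hy => uu_pos F q κ δ hδ w _ (key0 x hx y hy))
      (fun x hx y hy => uu_x F M hF q κ δ hδ w x y (key0 x hx y hy))
      (fun x hx y hy => uu_y F M hF q κ δ hδ w x y (key0 x hx y hy))
      (fun x hx y hy => ux_y F M hF q κ δ hδ w x y (key0 x hx y hy))
      (fun x hx y hy => log_x F M hF q κ δ hδ w x y (key0 x hx y hy))
      (fun x hx y hy => log_y F M hF q κ δ hδ w x y (key0 x hx y hy))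
      (fun x hx y hy => log_xx F M hF q δ hδ w x y (key0 x hx y hy))
      (fun x hx y hy => log_yy F M hF q κ δ hδ w x y (key0 x hx y hy))
      (cont_comp (cont_ux F M hF q κ δ hδ) w _ _ _ _ hy1)
      (cont_comp (cont_uy F M hF q κ δ hδ) w _ _ _ _ hy1)
      (cont_comp (cont_uxy F M hF q κ δ hδ) w _ _ _ _ hy1)
      (cont_comp (cont_lxx F M hF q δ hδ) w _ _ _ _ hy1)
      (cont_comp (cont_lyy F M hF q κ δ hδ) w _ _ _ _ hy1)
      (fun x hx y hy => lap_neg F q κ δ hq hκ hδ w _ (key0 x hx y hy))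
      (fun x hx y hy => uy_x F M hF q κ δ hδ w x y (key0 x hx y hy)) s' c ρ γ
      (fun k hk => fam.re_mem k (hmem k hk).1) (fun k hk => fam.im_mem k (hmem k hk).1)
      (fun k hk => fam.ρ_pos k (hmem k hk).1) (fun k hk => fam.γ_nonneg k (hmem k hk).1)
      hγf (fun k hk l hl => fam.disj k (hmem k hk).1 l (hmem l hl).1)
      (fun k hk x hx y hy h1 h2 => by
        have := hgainz k hk (pt x y) h1 h2
        rw [← pt_re_im (c k)] at this
        exact this)
      z ⟨hz1.1.1, hz1.1.2.le⟩ hz1.2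
      (fun k hk => by
        by_contra hcon
        push Not at hcon
        exact fam.ne k (hmem k hk).1 w (hmem k hk).2 z hcon hz2)
    linarith
  · rw [indicator_of_notMem hw, zero_add]
    have := star_plus0_yx x0 (x0 + 2 * Real.pi) y1 b hx hb
      (fun x y => uu F q κ δ w (pt x y)) (fun x y => ux F q κ δ w (pt x y))
      (fun x y => uy F q κ δ w (pt x y)) (fun x y => uxy F q κ δ w (pt x y))
      (fun x y => lx F q δ w (pt x y)) (fun x y => ly F q κ δ w (pt x y))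
      (fun x y => lxx F q δ w (pt x y)) (fun x y => lyy F q κ δ w (pt x y))
      (fun x hx y hy => uu_pos F q κ δ hδ w _ (key0 x hx y hy))
      (fun x hx y hy => uu_x F M hF q κ δ hδ w x y (key0 x hx y hy))
      (fun x hx y hy => uu_y F M hF q κ δ hδ w x y (key0 x hx y hy))
      (fun x hx y hy => ux_y F M hF q κ δ hδ w x y (key0 x hx y hy))
      (fun x hx y hy => log_x F M hF q κ δ hδ w x y (key0 x hx y hy))
      (fun x hx y hy => log_y F M hF q κ δ hδ w x y (key0 x hx y hy))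
      (fun x hx y hy => log_xx F M hF q δ hδ w x y (key0 x hx y hy))
      (fun x hx y hy => log_yy F M hF q κ δ hδ w x y (key0 x hx y hy))
      (cont_comp (cont_ux F M hF q κ δ hδ) w _ _ _ _ hy1)
      (cont_comp (cont_uy F M hF q κ δ hδ) w _ _ _ _ hy1)
      (cont_comp (cont_uxy F M hF q κ δ hδ) w _ _ _ _ hy1)
      (cont_comp (cont_lxx F M hF q δ hδ) w _ _ _ _ hy1)
      (cont_comp (cont_lyy F M hF q κ δ hδ) w _ _ _ _ hy1)
      (fun x hx y hy => lap_neg F q κ δ hq hκ hδ w _ (key0 x hx y hy))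
      (fun x hx y hy => uy_x F M hF q κ δ hδ w x y (key0 x hx y hy)) s' c ρ γ
      (fun k hk => fam.re_mem k (hmem k hk).1) (fun k hk => fam.im_mem k (hmem k hk).1)
      (fun k hk => fam.ρ_pos k (hmem k hk).1) (fun k hk => fam.γ_nonneg k (hmem k hk).1)
      hγf (fun k hk l hl => fam.disj k (hmem k hk).1 l (hmem l hl).1)
      (fun k hk x hx y hy h1 h2 => by
        have := hgainz k hk (pt x y) h1 h2
        rw [← pt_re_im (c k)] at this
        exact this)
      (fun k hk => by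
        have h1 := fam.ρ_le k (hmem k hk).1
        have h2 := (fam.im_mem k (hmem k hk).1).2
        have h3 := Real.pi_gt_three
        linarith)
    linarith

end H49.EC
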