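import Pool.Agent.H13.EC.K3
import Pool.Agent.H13.EC.K4
import Pool.Agent.H13.EC.M1
import Pool.Agent.H49.EC.K6e

/-!
# Project EC, K6: the integrated inequality
-/

set_option autoImplicit false

open Set Metric MeasureTheory Filter Topology

namespace H49.EC

open H62.CJ H13.EC

/-- Fubini for a function of `w` in a compact set and `t` in an interval -/
theorem param_swap {g : ℂ → ℝ → ℝ} {W : Set ℂ} (hW : IsCompact W) {a b : ℝ} (hab : a ≤ b)
    (hg : ContinuousOn (fun p : ℂ × ℝ => g p.1 p.2) (W ×ˢ Icc a b)) :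
    IntegrableOn (fun w => ∫ t in a..b, g w t) W ∧
      IntervalIntegrable (fun t => ∫ w in W, g w t) volume a b ∧
      ∫ w in W, ∫ t in a..b, g w t = ∫ t in a..b, ∫ w in W, g w t := by
  have h1 : IntegrableOn (fun p : ℂ × ℝ => g p.1 p.2) (W ×ˢ Icc a b) (volume.prod volume) := by
    rw [← Measure.volume_eq_prod]
    exact hg.integrableOn_compact (hW.prod isCompact_Icc)
  have h2 : IntegrableOn (fun p : ℂ × ℝ => g p.1 p.2) (W ×ˢ Ioc a b) (volume.prod volume) :=
    h1.mono_set (prod_mono subset_rfl Ioc_subset_Icc_self)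
  unfold IntegrableOn at h2
  rw [← Measure.prod_restrict] at h2
  simp only [intervalIntegral.integral_of_le hab]
  refine ⟨h2.integral_prod_left, ?_, ?_⟩
  · rw [intervalIntegrable_iff_integrableOn_Ioc_of_le hab]
    exact h2.integral_prod_right
  · exact integral_integral_swap h2

theorem cont_w {g : ℂ × ℂ → ℝ} (hg : ContinuousOn g (univ ×ˢ HP)) (z : ℂ) (hz : 0 < z.im) :
    Continuous (fun w : ℂ => g (w, z)) := by
  rw [← continuousOn_univ]
  exact hg.comp (by fun_prop) (fun w _ => ⟨mem_univ _, hz⟩)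

theorem volume_ball_toReal (a : ℂ) {σ : ℝ} (hσ : 0 ≤ σ) :
    (volume (ball a σ)).toReal = Real.pi * σ ^ 2 := by
  rw [Complex.volume_ball, ENNReal.toReal_mul, ENNReal.toReal_pow, ENNReal.toReal_ofReal hσ]
  simp
  ring

theorem integrated (M q κ b : ℝ) (hq : 0 < q) (hq1 : q < 1) (hκ : 0 < κ) (hb : 0 < b)
    (hb1 : b ≤ 1 / 4) :
    ∃ C0 : ℝ, 0 ≤ C0 ∧ ∀ F : ℂ → ℂ, Cls F M → ∀ x0 y1 : ℝ, 0 < y1 → y1 < b →
      ∀ (ι : Type) (s : Finset ι) (c : ι → ℂ) (ρ : ι → ℝ) (ω : ι → ℂ) (σ γ : ι → ℝ) (δ0 : ℝ),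
      IsFam F q κ x0 y1 b s c ρ ω σ γ δ0 →
      ∑ k ∈ s, γ k * (Real.pi * σ k ^ 2) +
        ∫ p in RC x0 y1 b, WW F q κ (pt p.1 p.2) *
          ((q / κ) ^ (-q) / (1 - q) - c1 q κ * (AA F (pt p.1 p.2)).im) ≤
      2 * Real.pi * q * (q / κ) ^ (1 - q) / (1 - q) *
        (∫ y in y1..b, y ^ (κ - q + 1) * ‖deriv F (pt x0 y)‖ ^ (2 - q)) + C0 := by
  set r : ℝ := (q / κ + 2) * |M| with hr
  have hqκ : 0 < q / κ := by positivity
  have hr0 : 0 ≤ r := by positivity
  have h1q : 0 < 1 - q := by linarith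
  have h2q : 0 < 2 - q := by linarith
  have hpi := Real.pi_pos
  set T : ℝ := 2 * Real.pi * (2 * r) ^ (1 - q) / (1 - q) with hT
  have hT0 : 0 ≤ T := by positivity
  refine ⟨2 * Real.pi * (q * b ^ κ * (|M| / b) * T) +
    b ^ κ * (2 * Real.pi * (2 * r) ^ (2 - q) / (2 - q)), by positivity, ?_⟩
  intro F hF x0 y1 hy1 hyb ι s c ρ ω σ γ δ0 fam
  have hM : 0 ≤ M := (norm_nonneg _).trans (hF.bdd (pt 0 1) (by simp) (by simp))
  have habs : |M| = M := abs_of_nonneg hM
  rw [habs] at hr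
  -- bounds on `F`, `F'`
  have hFb : ∀ z : ℂ, 0 < z.im → z.im ≤ b → ‖F z‖ ≤ M := fun z h1 h2 =>
    hF.bdd z h1 (by linarith)
  have hFd : ∀ z : ℂ, 0 < z.im → z.im ≤ b → z.im * ‖deriv F z‖ ≤ M := by
    intro z h1 h2
    have h3 := cauchy_bound F M hF z.re z.im h1 (by linarith)
    rw [pt_re_im, le_div_iff₀ h1] at h3
    linarith
  set W : Set ℂ := closedBall 0 r with hW
  have hWc : IsCompact W := isCompact_closedBall _ _
  set K : Set (ℝ × ℝ) := RC x0 y1 b with hK
  have hKc : IsCompact K := isCompact_Icc.prod isCompact_Icc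
  have hKpos : ∀ z ∈ K, 0 < z.2 := fun z hz => hy1.trans_le hz.2.1
  have hKsub : K ⊆ univ ×ˢ Ioi 0 := fun z hz => ⟨mem_univ _, hKpos z hz⟩
  have hx1 : x0 ≤ x0 + 2 * Real.pi := by linarith
  -- the side terms
  set side : ℝ → ℂ → ℝ := fun δ => sideT F q κ δ (x0 + 2 * Real.pi) x0 y1 b with hside
  have hcu : ∀ δ : ℝ, 0 < δ → ContinuousOn
      (fun p : ℂ × ℝ => max 0 (-uy F q κ δ p.1 (pt (x0 + 2 * Real.pi) p.2))) (W ×ˢ Icc y1 b) := by
    intro δ hδ
    refine ContinuousOn.sup (continuousOn_const (c := (0 : ℝ))) (ContinuousOn.neg ?_)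
    have h1 := cont_uy F M hF q κ δ hδ
    refine h1.comp (f := fun p : ℂ × ℝ => (p.1, pt (x0 + 2 * Real.pi) p.2)) ?_ ?_
    · apply Continuous.continuousOn
      exact continuous_fst.prodMk (P1_pt_cont.comp (continuous_const.prodMk continuous_snd))
    · rintro ⟨w, y⟩ ⟨_, hy⟩
      exact ⟨mem_univ _, hy1.trans_le hy.1⟩
  have hcx : ∀ δ : ℝ, 0 < δ → ContinuousOn
      (fun p : ℂ × ℝ => max 0 (-ux F q κ δ p.1 (pt p.2 b)))
      (W ×ˢ Icc x0 (x0 + 2 * Real.pi)) := by
    intro δ hδ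
    refine ContinuousOn.sup (continuousOn_const (c := (0 : ℝ))) (ContinuousOn.neg ?_)
    have h1 := cont_ux F M hF q κ δ hδ
    refine h1.comp (f := fun p : ℂ × ℝ => (p.1, pt p.2 b)) ?_ ?_
    · apply Continuous.continuousOn
      exact continuous_fst.prodMk (P1_pt_cont.comp (continuous_snd.prodMk continuous_const))
    · rintro ⟨w, x⟩ ⟨_, hx⟩
      exact ⟨mem_univ _, hb⟩
  have hcc : ∀ δ : ℝ, 0 < δ → IntegrableOn
      (fun w => uu F q κ δ w (pt (x0 + 2 * Real.pi) b)) W := by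
    intro δ hδ
    have h1 := cont_w (cont_uu F M hF q κ δ hδ) (pt (x0 + 2 * Real.pi) b) hb
    exact h1.continuousOn.integrableOn_compact hWc
  have hrM : ∀ z : ℂ, 0 < z.im → z.im ≤ b → ‖F z‖ ≤ r := by
    intro z h1 h2
    refine (hFb z h1 h2).trans ?_
    rw [hr]
    nlinarith
  have hsidei : ∀ δ ∈ Ioo 0 δ0, IntegrableOn (side δ) W := by
    intro δ hδ
    have h1 := (param_swap (g := fun w y => max 0 (-uy F q κ δ w (pt (x0 + 2 * Real.pi) y))) hWc
      hyb.le (hcu δ hδ.1)).1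
    have h2 := (param_swap (g := fun w x => max 0 (-ux F q κ δ w (pt x b))) hWc
      hx1 (hcx δ hδ.1)).1
    exact (h1.add h2).add (hcc δ hδ.1)
  have hsidev : ∀ δ ∈ Ioo 0 δ0, ∫ w in W, side δ w ≤
      2 * Real.pi * q * (q / κ) ^ (1 - q) / (1 - q) *
        (∫ y in y1..b, y ^ (κ - q + 1) * ‖deriv F (pt x0 y)‖ ^ (2 - q)) +
      (2 * Real.pi * (q * b ^ κ * (|M| / b) * T) +
        b ^ κ * (2 * Real.pi * (2 * r) ^ (2 - q) / (2 - q))) := by
    intro δ hδ
    obtain ⟨a1, a2, a3⟩ := param_swap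
      (g := fun w y => max 0 (-uy F q κ δ w (pt (x0 + 2 * Real.pi) y))) hWc
      hyb.le (hcu δ hδ.1)
    obtain ⟨b1, b2, b3⟩ := param_swap (g := fun w x => max 0 (-ux F q κ δ w (pt x b))) hWc
      hx1 (hcx δ hδ.1)
    have e1 : ∫ w in W, side δ w =
        (∫ w in W, ∫ y in y1..b, max 0 (-uy F q κ δ w (pt (x0 + 2 * Real.pi) y))) +
        (∫ w in W, ∫ x in x0..(x0 + 2 * Real.pi), max 0 (-ux F q κ δ w (pt x b))) +
        ∫ w in W, uu F q κ δ w (pt (x0 + 2 * Real.pi) b) := by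
      have g1 := integral_add (a1.add b1) (hcc δ hδ.1)
      have g2 := integral_add a1 b1
      simp only [Pi.add_apply] at g1
      rw [g2] at g1
      exact g1
    rw [e1, a3, b3]
    have i1 : ∫ y in y1..b, (∫ w in W, max 0 (-uy F q κ δ w (pt (x0 + 2 * Real.pi) y))) ≤
        2 * Real.pi * q * (q / κ) ^ (1 - q) / (1 - q) *
        (∫ y in y1..b, y ^ (κ - q + 1) * ‖deriv F (pt x0 y)‖ ^ (2 - q)) := by
      rw [← intervalIntegral.integral_const_mul]
      apply intervalIntegral.integral_mono_on hyb.le a2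
      · apply IntervalIntegrable.const_mul
        apply ContinuousOn.intervalIntegrable
        rw [uIcc_of_le hyb.le]
        have h1 : ContinuousOn (fun y : ℝ => y ^ (κ - q + 1)) (Icc y1 b) :=
          continuousOn_id.rpow_const (fun y hy => Or.inl (hy1.trans_le hy.1).ne')
        have h2 : ContinuousOn (fun y : ℝ => ‖deriv F (pt x0 y)‖ ^ (2 - q)) (Icc y1 b) := by
          refine (P1_ucont F M hF (2 - q)).comp (f := fun y : ℝ => (x0, y)) (by fun_prop) ?_
          intro y hy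
          exact ⟨mem_univ _, hy1.trans_le hy.1⟩
        exact h1.mul h2
      · intro y hy
        have hy0 : 0 < y := hy1.trans_le hy.1
        have h1 := side_bound F q κ δ hq hq1 hκ hδ.1 (pt (x0 + 2 * Real.pi) y) hy0
          (deriv_ne F M hF _ hy0) r
        have h2 : deriv F (pt (x0 + 2 * Real.pi) y) = deriv F (pt x0 y) := by
          have h3 := deriv_per F M hF (pt x0 y) hy0
          rw [← h3]
          congr 1
          rw [pt_eq, pt_eq]
          push_cast
          ring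
        rw [h2, pt_im] at h1
        exact h1
    have i2 : ∫ x in x0..(x0 + 2 * Real.pi), (∫ w in W, max 0 (-ux F q κ δ w (pt x b))) ≤
        2 * Real.pi * (q * b ^ κ * (|M| / b) * T) := by
      have h1 : ∫ x in x0..(x0 + 2 * Real.pi), (∫ w in W, max 0 (-ux F q κ δ w (pt x b))) ≤
          ∫ _ in x0..(x0 + 2 * Real.pi), q * b ^ κ * (|M| / b) * T := by
        apply intervalIntegral.integral_mono_on hx1 b2 intervalIntegrable_const
        intro x _
        have h2 := top_bound F q κ δ hq hq1 hδ.1 (pt x b) hb r (hrM _ hb le_rfl)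
        have h3 : ‖deriv F (pt x b)‖ ≤ |M| / b := by
          rw [habs]
          exact cauchy_bound F M hF x b hb (by linarith)
        refine h2.trans ?_
        rw [pt_im, ← hT]
        gcongr
      refine h1.trans (le_of_eq ?_)
      rw [intervalIntegral.integral_const, smul_eq_mul]
      ring
    have i3 := corner_bound F q κ δ hq hq1 hδ.1 (pt (x0 + 2 * Real.pi) b) hb r
      (hrM _ hb le_rfl)
    rw [pt_im] at i3
    linarith
  -- births
  have hFHO : F '' HO x0 y1 b ⊆ W := by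
    rintro _ ⟨z, hz, rfl⟩
    rw [hW, mem_closedBall_zero_iff]
    exact hrM z (hy1.trans_le hz.2.1) hz.2.2
  have hbirthi : ∀ δ ∈ Ioo 0 δ0, IntegrableOn (birthT F q κ δ x0 y1 b) W := by
    intro δ _
    unfold birthT
    have h1 := births_integrable F M hF κ x0 y1 b hκ hy1 hyb
    have h2 := (h1.const_mul (δ ^ (-q)))
    have h3 : Integrable ((F '' HO x0 y1 b).indicator
        (fun w => δ ^ (-q) * hgt F (HO x0 y1 b) w ^ κ)) :=
      (integrable_indicator_iff (HO_meas F M hF x0 y1 b hy1)).mpr h2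
    exact h3.integrableOn
  have hbirthv : ∀ δ ∈ Ioo 0 δ0,
      δ ^ (-q) * ∫ z in K, z.2 ^ κ * ‖deriv F (pt z.1 z.2)‖ ^ 2 ≤
        ∫ w in W, birthT F q κ δ x0 y1 b w := by
    intro δ _
    apply le_of_eq
    unfold birthT
    rw [setIntegral_indicator (HO_meas F M hF x0 y1 b hy1), inter_eq_self_of_subset_right hFHO,
      integral_const_mul, births F M hF κ x0 y1 b hκ hy1 hyb]
  -- gains
  have hballW : ∀ k ∈ s, ball (ω k) (σ k) ⊆ W := by
    intro k hk w hw
    rw [hW, mem_closedBall_zero_iff]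
    have h1 := fam.ω_le k hk
    have h2 := fam.im_mem k hk
    have h3 := hFb (c k) (hy1.trans_le h2.1) h2.2
    have h4 := hFd (c k) (hy1.trans_le h2.1) h2.2
    have h5 : (q / κ + 1) * ((c k).im * ‖deriv F (c k)‖) ≤ (q / κ + 1) * M := by gcongr
    have h6 : ‖w‖ ≤ ‖w - ω k‖ + ‖ω k - F (c k)‖ + ‖F (c k)‖ := by
      calc ‖w‖ = ‖(w - ω k) + (ω k - F (c k)) + F (c k)‖ := by congr 1; ring
        _ ≤ _ := norm_add₃_le
    rw [mem_ball_iff_norm] at hw
    rw [hr]
    linarith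
  have hslacki : ∀ δ ∈ Ioo 0 δ0, IntegrableOn (slackT s ω σ γ) W := by
    intro δ _
    unfold slackT
    apply integrable_finsetSum
    intro k _
    apply Integrable.indicator _ measurableSet_ball
    exact (integrableOn_const (hWc.measure_lt_top.ne))
  have hslackv : ∀ δ ∈ Ioo 0 δ0, ∑ k ∈ s, γ k * (Real.pi * σ k ^ 2) ≤
      ∫ w in W, slackT s ω σ γ w := by
    intro δ _
    apply le_of_eq
    unfold slackT
    rw [integral_finsetSum]
    · apply Finset.sum_congr rfl
      intro k hk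
      rw [setIntegral_indicator measurableSet_ball,
        inter_eq_self_of_subset_right (hballW k hk), setIntegral_const, smul_eq_mul, Measure.real,
        volume_ball_toReal _ (fam.σ_nonneg k hk)]
      ring
    · intro k _
      apply Integrable.indicator _ measurableSet_ball
      exact (integrableOn_const (hWc.measure_lt_top.ne))
  -- the abstract theorem
  have main := K6_abstract (q := q) (kap := κ) (d0 := δ0) hq hq1 hκ fam.δ0_pos (K := K) hKc hKpos
    (b := fun z => F (pt z.1 z.2)) (c := fun z => deriv F (pt z.1 z.2))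
    (e := fun z => deriv (deriv F) (pt z.1 z.2))
    ((P1_cont2 F hF.diff).mono hKsub) ((P1_cont2 _ (P1_d1 F M hF)).mono hKsub)
    ((P1_cont2 _ (P1_d2 F M hF)).mono hKsub)
    (fun z hz => deriv_ne F M hF _ (hKpos z hz)) (W := W) measurableSet_closedBall
    isBounded_closedBall
    (by
      intro z hz w hw
      rw [hW, mem_closedBall_zero_iff]
      have h1 := hFb (pt z.1 z.2) (hKpos z hz) hz.2.2
      have h2 := hFd (pt z.1 z.2) (hKpos z hz) hz.2.2
      rw [pt_im] at h2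
      have h3 : q / κ * (z.2 * ‖deriv F (pt z.1 z.2)‖) ≤ q / κ * M := by gcongr
      have h4 : ‖w‖ ≤ ‖w - F (pt z.1 z.2)‖ + ‖F (pt z.1 z.2)‖ := by
        calc ‖w‖ = ‖(w - F (pt z.1 z.2)) + F (pt z.1 z.2)‖ := by congr 1; ring
          _ ≤ _ := norm_add_le _ _
      rw [hr]
      linarith)
    (birth := fun δ => birthT F q κ δ x0 y1 b) (side := side) (slack := fun _ => slackT s ω σ γ)
    hbirthi hbirthv hsidei hsidev hslacki hslackv
    (by
      intro δ hδ
      filter_upwards with w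
      have h2 := per_w F M hF q κ δ x0 y1 b hq hκ hδ.1 hy1 hyb hb1 s c ρ ω σ γ δ0 fam
        hδ.2.le w
      have h3 : ∫ p in RC x0 y1 b, jj F q κ δ w (pt p.1 p.2) =
          ∫ z in K, Jw q κ δ z.2 (F (pt z.1 z.2)) (deriv F (pt z.1 z.2))
            (deriv (deriv F) (pt z.1 z.2)) w := by
        apply setIntegral_congr_fun hKc.measurableSet
        intro z hz
        exact jj_eq F q κ δ hδ.1 w (pt z.1 z.2) (hKpos z hz)
      rw [h3] at h2
      exact h2)
  -- moments
  have m0 := mom_re F M hF q κ x0 y1 b hq1 hy1 hyb.le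
  have e0 : ∀ z : ℝ × ℝ, z.2 ^ (κ - q) * ‖deriv F (pt z.1 z.2)‖ ^ (2 - q) =
      WW F q κ (pt z.1 z.2) := fun z => rfl
  have e1 : ∀ z : ℝ × ℝ, (z.2 : ℂ) * deriv (deriv F) (pt z.1 z.2) / deriv F (pt z.1 z.2) =
      AA F (pt z.1 z.2) := fun z => rfl
  simp only [e0, e1] at main
  rw [m0, mul_zero, sub_zero] at main
  have iW : IntegrableOn (fun p : ℝ × ℝ => WW F q κ (pt p.1 p.2)) K :=
    rc_integrable (WW F q κ) (cont_WW F M hF q κ) x0 y1 b hy1
  have iA : IntegrableOn (fun p : ℝ × ℝ => WW F q κ (pt p.1 p.2) * (AA F (pt p.1 p.2)).im) K :=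
    rc_integrable (fun z => WW F q κ z * (AA F z).im)
      ((cont_WW F M hF q κ).mul (Complex.continuous_im.comp_continuousOn (cont_AA F M hF)))
      x0 y1 b hy1
  have e2 : ∫ p in K, WW F q κ (pt p.1 p.2) *
      ((q / κ) ^ (-q) / (1 - q) - c1 q κ * (AA F (pt p.1 p.2)).im) =
      (q / κ) ^ (-q) / (1 - q) * (∫ p in K, WW F q κ (pt p.1 p.2)) -
      c1 q κ * (∫ p in K, WW F q κ (pt p.1 p.2) * (AA F (pt p.1 p.2)).im) := by
    rw [← integral_const_mul, ← integral_const_mul, ← integral_sub (iW.const_mul _)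
      (iA.const_mul _)]
    apply integral_congr_ae
    filter_upwards with p
    ring
  rw [e2]
  have e3 : q * (-((q / κ) ^ (-q) / (q * (1 - q))) * (∫ p in K, WW F q κ (pt p.1 p.2)) +
      (q / κ) ^ (1 - q) / ((1 - q) * (2 - q)) *
        (∫ p in K, WW F q κ (pt p.1 p.2) * (AA F (pt p.1 p.2)).im)) =
      -((q / κ) ^ (-q) / (1 - q) * (∫ p in K, WW F q κ (pt p.1 p.2))) +
      c1 q κ * (∫ p in K, WW F q κ (pt p.1 p.2) * (AA F (pt p.1 p.2)).im) := by
    unfold c1
    field_simp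
  rw [e3] at main
  linarith

end H49.EC
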