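import Pool.Agent.H92.EC.Xw

/-!
# Project EC, K6: Fubini in `w` and `delta -> 0` (abstract part)
-/

set_option autoImplicit false

open Set MeasureTheory Filter Topology
open H92.EC

namespace H49.EC

/-- the set `UX < 0, UY < 0` lies in the disc of radius `R V` about `b` -/
theorem norm_lt_of_UY_neg {q kap dl y : ℝ} {b c w : ℂ} (hq : 0 < q) (hkap : 0 < kap)
    (hy : 0 < y) (hdl : 0 < dl) (h : UY q kap dl y b c w < 0) :
    ‖w - b‖ < q / kap * (y * ‖c‖) := by
  have hM : 0 < MW dl b w := by unfold MW; positivity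
  have e1 : MW dl b w ^ (-(q / 2)) = MW dl b w ^ (-(q / 2) - 1) * MW dl b w := by
    rw [← Real.rpow_add_one hM.ne']
    congr 1
    ring
  have e2 : y ^ kap = y ^ (kap - 1) * y := by
    rw [← Real.rpow_add_one hy.ne']
    congr 1
    ring
  set D := ((starRingEnd ℂ) (w - b) * (Complex.I * c)).re with hD
  have e3 : UY q kap dl y b c w =
      (y ^ (kap - 1) * MW dl b w ^ (-(q / 2) - 1)) * (kap * MW dl b w + q * y * D) := by
    unfold UY
    rw [e1, e2]
    ring
  have h4 : 0 < y ^ (kap - 1) * MW dl b w ^ (-(q / 2) - 1) := by positivity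
  rw [e3] at h
  have h5 : kap * MW dl b w + q * y * D < 0 := by
    by_contra hcon
    push Not at hcon
    have := mul_nonneg h4.le hcon
    linarith
  have h6 : -(‖w - b‖ * ‖c‖) ≤ D := by
    have h7 := Complex.abs_re_le_norm ((starRingEnd ℂ) (w - b) * (Complex.I * c))
    rw [← hD] at h7
    have h8 : ‖(starRingEnd ℂ) (w - b) * (Complex.I * c)‖ = ‖w - b‖ * ‖c‖ := by
      rw [norm_mul, norm_mul, Complex.norm_I, one_mul, RCLike.norm_conj]
    rw [h8] at h7
    exact (abs_le.mp h7).1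
  have h9 : ‖w - b‖ ^ 2 < MW dl b w := by
    unfold MW
    have : 0 < dl ^ 2 := by positivity
    linarith
  have h10 : kap * ‖w - b‖ ^ 2 < q * y * (‖w - b‖ * ‖c‖) := by
    have h11 : q * y * (-(‖w - b‖ * ‖c‖)) ≤ q * y * D :=
      mul_le_mul_of_nonneg_left h6 (by positivity)
    have h12 : kap * ‖w - b‖ ^ 2 < kap * MW dl b w := mul_lt_mul_of_pos_left h9 hkap
    linarith
  have h13 : 0 < ‖w - b‖ := by
    rcases (norm_nonneg (w - b)).lt_or_eq with h14 | h14
    · exact h14
    · rw [← h14] at h10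
      simp at h10
  rw [div_mul_eq_mul_div, lt_div_iff₀ hkap]
  have h15 : ‖w - b‖ * (‖w - b‖ * kap) < ‖w - b‖ * (q * (y * ‖c‖)) := by linarith [h10]
  exact lt_of_mul_lt_mul_left h15 h13.le

/-- the integrand -/
noncomputable def Jw (q kap dl y : ℝ) (b c e w : ℂ) : ℝ :=
  open Classical in if UX q kap dl y b c w < 0 ∧ UY q kap dl y b c w < 0 then
    UXY q kap dl y b c e w else 0

theorem integral_Jw_univ {q kap dl y : ℝ} {c : ℂ} (hq : 0 < q) (hkap : 0 < kap) (hy : 0 < y)
    (hdl : 0 < dl) (hc : c ≠ 0) (b e : ℂ) {W : Set ℂ}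
    (hWc : ∀ w, ‖w - b‖ < q / kap * (y * ‖c‖) → w ∈ W) :
    ∫ w in W, Jw q kap dl y b c e w =
      q * y ^ (kap - q) * ‖c‖ ^ (2 - q) *
        (X0 q (q / kap) (dl / (y * ‖c‖)) +
          ((y : ℂ) * e / c).im * X1 q (q / kap) (dl / (y * ‖c‖)) -
          ((y : ℂ) * e / c).re * X2 q (q / kap) (dl / (y * ‖c‖))) := by
  have hM : ∀ w : ℂ, 0 < MW dl b w := fun w => by unfold MW; positivity
  have hcont : Continuous (fun w : ℂ => MW dl b w) := by unfold MW; fun_prop
  have hc1 : Continuous (UX q kap dl y b c) := by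
    unfold UX
    have h1 := hcont.rpow_const (p := -(q / 2) - 1) (fun w => Or.inl (hM w).ne')
    fun_prop
  have hc2 : Continuous (UY q kap dl y b c) := by
    unfold UY
    have h1 := hcont.rpow_const (p := -(q / 2) - 1) (fun w => Or.inl (hM w).ne')
    have h2 := hcont.rpow_const (p := -(q / 2)) (fun w => Or.inl (hM w).ne')
    fun_prop
  have hS : MeasurableSet {w : ℂ | UX q kap dl y b c w < 0 ∧ UY q kap dl y b c w < 0} :=
    ((isOpen_lt hc1 continuous_const).inter (isOpen_lt hc2 continuous_const)).measurableSet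
  rw [← integral_UXY hq hkap hy hdl hc b e, ← integral_indicator hS]
  have h1 : ∀ w, {w : ℂ | UX q kap dl y b c w < 0 ∧ UY q kap dl y b c w < 0}.indicator
      (UXY q kap dl y b c e) w = Jw q kap dl y b c e w := by
    intro w
    unfold Jw
    classical
    rw [indicator_apply]
    rfl
  simp_rw [h1]
  apply setIntegral_eq_integral_of_forall_compl_eq_zero
  intro w hw
  unfold Jw
  rw [if_neg]
  intro h
  exact hw (hWc w (norm_lt_of_UY_neg hq hkap hy hdl h.2))

end H49.EC
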