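import Pool.Agent.H49.EC.K6a

/-!
# Project EC, K6: Fubini in `w` (measurability, boundedness)
-/

set_option autoImplicit false

open Set MeasureTheory Filter Topology
open H92.EC

namespace H49.EC

theorem aemeasurable_ite3 {α : Type*} [MeasurableSpace α] {μ : Measure α} {f1 f2 f3 : α → ℝ}
    (h1 : AEMeasurable f1 μ) (h2 : AEMeasurable f2 μ) (h3 : AEMeasurable f3 μ) :
    AEMeasurable (fun x => open Classical in if f1 x < 0 ∧ f2 x < 0 then f3 x else 0) μ := by
  classical
  refine ⟨fun x => if h1.mk f1 x < 0 ∧ h2.mk f2 x < 0 then h3.mk f3 x else 0, ?_, ?_⟩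
  · apply Measurable.ite
    · exact (measurableSet_lt h1.measurable_mk measurable_const).inter
        (measurableSet_lt h2.measurable_mk measurable_const)
    · exact h3.measurable_mk
    · exact measurable_const
  · filter_upwards [h1.ae_eq_mk, h2.ae_eq_mk, h3.ae_eq_mk] with x e1 e2 e3
    simp only [← e1, ← e2, ← e3]

section cont

variable {q kap dl : ℝ} {K : Set (ℝ × ℝ)} {b c e : ℝ × ℝ → ℂ}

theorem continuousOn_MW (hb : ContinuousOn b K) (W : Set ℂ) :
    ContinuousOn (fun x : (ℝ × ℝ) × ℂ => MW dl (b x.1) x.2) (K ×ˢ W) := by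
  have h1 : ContinuousOn (fun x : (ℝ × ℝ) × ℂ => b x.1) (K ×ˢ W) :=
    hb.comp continuousOn_fst (fun x hx => hx.1)
  unfold MW
  exact ((continuousOn_snd.sub h1).norm.pow 2).add continuousOn_const

theorem continuousOn_rpowMW (hdl : 0 < dl) (hb : ContinuousOn b K) (W : Set ℂ) (s : ℝ) :
    ContinuousOn (fun x : (ℝ × ℝ) × ℂ => MW dl (b x.1) x.2 ^ s) (K ×ˢ W) := by
  apply (continuousOn_MW hb W).rpow_const
  intro x _
  left
  have : 0 < MW dl (b x.1) x.2 := by unfold MW; positivity
  exact this.ne'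

theorem continuousOn_rpowy (hpos : ∀ z ∈ K, 0 < z.2) (W : Set ℂ) (s : ℝ) :
    ContinuousOn (fun x : (ℝ × ℝ) × ℂ => x.1.2 ^ s) (K ×ˢ W) := by
  have : ContinuousOn (fun x : (ℝ × ℝ) × ℂ => x.1.2) (K ×ˢ W) := by fun_prop
  exact this.rpow_const (fun x hx => Or.inl (hpos x.1 hx.1).ne')

theorem continuousOn_dot (hb : ContinuousOn b K) (hc : ContinuousOn c K) (W : Set ℂ) :
    ContinuousOn (fun x : (ℝ × ℝ) × ℂ => ((starRingEnd ℂ) (x.2 - b x.1) * c x.1).re)
      (K ×ˢ W) := by
  have h1 : ContinuousOn (fun x : (ℝ × ℝ) × ℂ => b x.1) (K ×ˢ W) :=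
    hb.comp continuousOn_fst (fun x hx => hx.1)
  have h2 : ContinuousOn (fun x : (ℝ × ℝ) × ℂ => c x.1) (K ×ˢ W) :=
    hc.comp continuousOn_fst (fun x hx => hx.1)
  exact Complex.continuous_re.comp_continuousOn
    ((Complex.continuous_conj.comp_continuousOn (continuousOn_snd.sub h1)).mul h2)

theorem continuousOn_UX (hdl : 0 < dl) (hpos : ∀ z ∈ K, 0 < z.2) (hb : ContinuousOn b K)
    (hc : ContinuousOn c K) (W : Set ℂ) :
    ContinuousOn (fun x : (ℝ × ℝ) × ℂ => UX q kap dl x.1.2 (b x.1) (c x.1) x.2) (K ×ˢ W) := by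
  unfold UX
  exact ((continuousOn_const.mul (continuousOn_rpowy hpos W _)).mul
    (continuousOn_rpowMW hdl hb W _)).mul (continuousOn_dot hb hc W)

theorem continuousOn_UY (hdl : 0 < dl) (hpos : ∀ z ∈ K, 0 < z.2) (hb : ContinuousOn b K)
    (hc : ContinuousOn c K) (W : Set ℂ) :
    ContinuousOn (fun x : (ℝ × ℝ) × ℂ => UY q kap dl x.1.2 (b x.1) (c x.1) x.2) (K ×ˢ W) := by
  have hIc : ContinuousOn (fun z => Complex.I * c z) K := continuousOn_const.mul hc
  unfold UY
  exact ((continuousOn_const.mul (continuousOn_rpowy hpos W _)).mul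
    (continuousOn_rpowMW hdl hb W _)).add
    (((continuousOn_const.mul (continuousOn_rpowy hpos W _)).mul
    (continuousOn_rpowMW hdl hb W _)).mul (continuousOn_dot hb hIc W))

theorem continuousOn_UXY (hdl : 0 < dl) (hpos : ∀ z ∈ K, 0 < z.2) (hb : ContinuousOn b K)
    (hc : ContinuousOn c K) (he : ContinuousOn e K) (W : Set ℂ) :
    ContinuousOn (fun x : (ℝ × ℝ) × ℂ => UXY q kap dl x.1.2 (b x.1) (c x.1) (e x.1) x.2)
      (K ×ˢ W) := by
  have hIc : ContinuousOn (fun z => Complex.I * c z) K := continuousOn_const.mul hc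
  have hIe : ContinuousOn (fun z => Complex.I * e z) K := continuousOn_const.mul he
  unfold UXY
  exact (((continuousOn_const.mul (continuousOn_rpowy hpos W _)).mul
    (continuousOn_rpowMW hdl hb W _)).mul (continuousOn_dot hb hc W)).add
    ((continuousOn_const.mul (continuousOn_rpowy hpos W _)).mul
      (((continuousOn_rpowMW hdl hb W _).mul (continuousOn_dot hb hIe W)).add
        (((continuousOn_const.mul (continuousOn_rpowMW hdl hb W _)).mul
          (continuousOn_dot hb hIc W)).mul (continuousOn_dot hb hc W))))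

/-- the integrand as a function of `(z, w)` -/
noncomputable def Phi (q kap dl : ℝ) (b c e : ℝ × ℝ → ℂ) (x : (ℝ × ℝ) × ℂ) : ℝ :=
  Jw q kap dl x.1.2 (b x.1) (c x.1) (e x.1) x.2

theorem integrableOn_Phi (hdl : 0 < dl) (hK : IsCompact K) (hpos : ∀ z ∈ K, 0 < z.2)
    (hb : ContinuousOn b K) (hc : ContinuousOn c K) (he : ContinuousOn e K) {W : Set ℂ}
    (hW : MeasurableSet W) (hWb : Bornology.IsBounded W) :
    IntegrableOn (Phi q kap dl b c e) (K ×ˢ W) (volume.prod volume) := by
  have hWc : IsCompact (closure W) := hWb.isCompact_closure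
  obtain ⟨C, hC⟩ := (hK.prod hWc).exists_bound_of_continuousOn
    (continuousOn_UXY (q := q) (kap := kap) hdl hpos hb hc he (closure W))
  have hms : MeasurableSet (K ×ˢ W) := hK.measurableSet.prod hW
  have hfin : (volume.prod volume : Measure ((ℝ × ℝ) × ℂ)) (K ×ˢ W) < ⊤ := by
    rw [Measure.prod_prod]
    exact ENNReal.mul_lt_top hK.measure_lt_top hWb.measure_lt_top
  have : IsFiniteMeasure ((volume.prod volume : Measure ((ℝ × ℝ) × ℂ)).restrict (K ×ˢ W)) :=
    ⟨by rw [Measure.restrict_apply_univ]; exact hfin⟩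
  apply Integrable.of_bound (C := max C 0)
  · apply AEMeasurable.aestronglyMeasurable
    have := aemeasurable_ite3 (μ := (volume.prod volume).restrict (K ×ˢ W))
      ((continuousOn_UX (q := q) (kap := kap) hdl hpos hb hc W).aemeasurable hms)
      ((continuousOn_UY (q := q) (kap := kap) hdl hpos hb hc W).aemeasurable hms)
      ((continuousOn_UXY (q := q) (kap := kap) hdl hpos hb hc he W).aemeasurable hms)
    exact this
  · filter_upwards [ae_restrict_mem hms] with x hx
    unfold Phi Jw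
    split_ifs with h
    · exact (hC x ⟨hx.1, subset_closure hx.2⟩).trans (le_max_left _ _)
    · simp

theorem swap_Phi (hdl : 0 < dl) (hK : IsCompact K) (hpos : ∀ z ∈ K, 0 < z.2)
    (hb : ContinuousOn b K) (hc : ContinuousOn c K) (he : ContinuousOn e K) {W : Set ℂ}
    (hW : MeasurableSet W) (hWb : Bornology.IsBounded W) :
    ∫ w in W, ∫ z in K, Jw q kap dl z.2 (b z) (c z) (e z) w =
      ∫ z in K, ∫ w in W, Jw q kap dl z.2 (b z) (c z) (e z) w := by
  have h1 := integrableOn_Phi (q := q) (kap := kap) hdl hK hpos hb hc he hW hWb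
  unfold IntegrableOn at h1
  rw [← Measure.prod_restrict] at h1
  exact (integral_integral_swap
    (f := fun (z : ℝ × ℝ) (w : ℂ) => Jw q kap dl z.2 (b z) (c z) (e z) w) h1).symm

theorem integrable_inner (hdl : 0 < dl) (hK : IsCompact K) (hpos : ∀ z ∈ K, 0 < z.2)
    (hb : ContinuousOn b K) (hc : ContinuousOn c K) (he : ContinuousOn e K) {W : Set ℂ}
    (hW : MeasurableSet W) (hWb : Bornology.IsBounded W) :
    IntegrableOn (fun w => ∫ z in K, Jw q kap dl z.2 (b z) (c z) (e z) w) W := by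
  have h1 := integrableOn_Phi (q := q) (kap := kap) hdl hK hpos hb hc he hW hWb
  unfold IntegrableOn at h1
  rw [← Measure.prod_restrict] at h1
  exact h1.integral_prod_right

end cont

end H49.EC
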